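import Pool.Agent.Y264.QR.Stm2

/-!
# Project QR, part DIR1: approximation of the sines by functions with compact support
-/

set_option autoImplicit false

open Set Filter Topology MeasureTheory
open scoped Real ContDiff

noncomputable section

namespace Pool.Agent.Y252.QR.Dir1

open Pool.Agent.Y264.QR

/-! ### the orthogonality relations -/

lemma ic (m : ℤ) : ∫ x in (0 : ℝ)..1, Real.cos (m * π * x) = if m = 0 then 1 else 0 := by
  by_cases hm : m = 0
  · subst hm
    simp
  · rw [if_neg hm]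
    have hc : (m : ℝ) * π ≠ 0 := mul_ne_zero (Int.cast_ne_zero.2 hm) Real.pi_ne_zero
    have h := intervalIntegral.integral_comp_mul_left (a := (0 : ℝ)) (b := 1) Real.cos hc
    rw [h, mul_zero, mul_one, integral_cos, Real.sin_int_mul_pi, Real.sin_zero]
    simp

lemma cosc (m : ℤ) : Continuous fun x : ℝ => Real.cos (m * π * x) := by fun_prop

lemma ss (k l : ℕ) : ∫ x in (0 : ℝ)..1, (Real.sqrt 2 * Real.sin ((k + 1) * π * x)) *
    (Real.sqrt 2 * Real.sin ((l + 1) * π * x)) = if k = l then 1 else 0 := by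
  have e : ∀ x : ℝ, (Real.sqrt 2 * Real.sin ((k + 1) * π * x)) *
      (Real.sqrt 2 * Real.sin ((l + 1) * π * x)) =
      Real.cos (((k : ℤ) - (l : ℤ) : ℤ) * π * x) -
        Real.cos (((k : ℤ) + (l : ℤ) + 2 : ℤ) * π * x) := by
    intro x
    have h2 : Real.sqrt 2 * Real.sqrt 2 = 2 := Real.mul_self_sqrt (by norm_num)
    have e1 : (((k : ℤ) - (l : ℤ) : ℤ) : ℝ) * π * x =
        (k + 1) * π * x - (l + 1) * π * x := by push_cast; ring
    have e2 : (((k : ℤ) + (l : ℤ) + 2 : ℤ) : ℝ) * π * x =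
        (k + 1) * π * x + (l + 1) * π * x := by push_cast; ring
    rw [e1, e2, Real.cos_sub, Real.cos_add]
    calc _ = (Real.sqrt 2 * Real.sqrt 2) *
          (Real.sin ((k + 1) * π * x) * Real.sin ((l + 1) * π * x)) := by ring
      _ = _ := by rw [h2]; ring
  simp only [e]
  rw [intervalIntegral.integral_sub ((cosc _).intervalIntegrable _ _)
    ((cosc _).intervalIntegrable _ _), ic, ic]
  have h1 : ((k : ℤ) + (l : ℤ) + 2 = 0) = False := by
    simp only [eq_iff_iff, iff_false]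
    omega
  rw [if_neg (by omega : ¬ ((k : ℤ) + (l : ℤ) + 2 = 0)), sub_zero]
  by_cases hkl : k = l
  · rw [if_pos hkl, if_pos (by omega)]
  · rw [if_neg hkl, if_neg (by omega)]

lemma cc (k l : ℕ) : ∫ x in (0 : ℝ)..1,
    (Real.sqrt 2 * (Real.cos ((k + 1) * π * x) * ((k + 1) * π))) *
    (Real.sqrt 2 * (Real.cos ((l + 1) * π * x) * ((l + 1) * π))) =
    if k = l then (π * (k + 1)) ^ 2 else 0 := by
  have e : ∀ x : ℝ, (Real.sqrt 2 * (Real.cos ((k + 1) * π * x) * ((k + 1) * π))) *
      (Real.sqrt 2 * (Real.cos ((l + 1) * π * x) * ((l + 1) * π))) =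
      ((k + 1) * π * ((l + 1) * π)) * (Real.cos (((k : ℤ) - (l : ℤ) : ℤ) * π * x) +
        Real.cos (((k : ℤ) + (l : ℤ) + 2 : ℤ) * π * x)) := by
    intro x
    have h2 : Real.sqrt 2 * Real.sqrt 2 = 2 := Real.mul_self_sqrt (by norm_num)
    have e1 : (((k : ℤ) - (l : ℤ) : ℤ) : ℝ) * π * x =
        (k + 1) * π * x - (l + 1) * π * x := by push_cast; ring
    have e2 : (((k : ℤ) + (l : ℤ) + 2 : ℤ) : ℝ) * π * x =
        (k + 1) * π * x + (l + 1) * π * x := by push_cast; ring
    rw [e1, e2, Real.cos_sub, Real.cos_add]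
    calc _ = (Real.sqrt 2 * Real.sqrt 2) * ((k + 1) * π * ((l + 1) * π)) *
          (Real.cos ((k + 1) * π * x) * Real.cos ((l + 1) * π * x)) := by ring
      _ = _ := by rw [h2]; ring
  simp only [e]
  rw [intervalIntegral.integral_const_mul,
    intervalIntegral.integral_add ((cosc _).intervalIntegrable _ _)
    ((cosc _).intervalIntegrable _ _), ic, ic]
  rw [if_neg (by omega : ¬ ((k : ℤ) + (l : ℤ) + 2 = 0)), add_zero]
  by_cases hkl : k = l
  · rw [if_pos hkl, if_pos (by omega), hkl]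
    ring
  · rw [if_neg hkl, if_neg (by omega), mul_zero]

/-! ### the change of variables -/

/-- a trapezoid -/
def hh (n : ℕ) (t : ℝ) : ℝ := max 0 (min 1 (min (n * t - 1) (n * (1 - t) - 1)))

lemma hh_cont (n : ℕ) : Continuous (hh n) := by
  unfold hh
  fun_prop

lemma hh_nonneg (n : ℕ) (t : ℝ) : 0 ≤ hh n t := le_max_left _ _

lemma hh_le (n : ℕ) (t : ℝ) : hh n t ≤ 1 := max_le zero_le_one (min_le_left _ _)

lemma hh_abs (n : ℕ) (t : ℝ) : |hh n t| ≤ 1 := by
  rw [abs_of_nonneg (hh_nonneg n t)]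
  exact hh_le n t

lemma hh_zero1 (n : ℕ) (t : ℝ) (h : n * t ≤ 1) : hh n t = 0 := by
  unfold hh
  refine max_eq_left ?_
  refine (min_le_right _ _).trans ((min_le_left _ _).trans ?_)
  linarith

lemma hh_zero2 (n : ℕ) (t : ℝ) (h : n * (1 - t) ≤ 1) : hh n t = 0 := by
  unfold hh
  refine max_eq_left ?_
  refine (min_le_right _ _).trans ((min_le_right _ _).trans ?_)
  linarith

lemma hh_lim (t : ℝ) (h0 : 0 < t) (h1 : t < 1) : Tendsto (fun n => hh n t) atTop (𝓝 1) := by
  refine tendsto_const_nhds.congr' ?_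
  have g1 : Tendsto (fun n : ℕ => (n : ℝ) * t) atTop atTop :=
    tendsto_natCast_atTop_atTop.atTop_mul_const h0
  have g2 : Tendsto (fun n : ℕ => (n : ℝ) * (1 - t)) atTop atTop :=
    tendsto_natCast_atTop_atTop.atTop_mul_const (by linarith)
  filter_upwards [g1.eventually_ge_atTop 2, g2.eventually_ge_atTop 2] with n h2 h3
  unfold hh
  rw [min_eq_left (le_min (by linarith) (by linarith)), max_eq_right zero_le_one]

/-- its integral -/
def J (n : ℕ) (x : ℝ) : ℝ := ∫ t in (0 : ℝ)..x, hh n t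

lemma J_deriv (n : ℕ) (x : ℝ) : HasDerivAt (J n) (hh n x) x :=
  intervalIntegral.integral_hasDerivAt_right ((hh_cont n).intervalIntegrable _ _)
    (hh_cont n).stronglyMeasurable.stronglyMeasurableAtFilter (hh_cont n).continuousAt

lemma J_zero (n : ℕ) (x : ℝ) (h : n * x ≤ 1) : J n x = 0 := by
  unfold J
  have : ∫ t in (0 : ℝ)..x, hh n t = ∫ t in (0 : ℝ)..x, (0 : ℝ) := by
    refine intervalIntegral.integral_congr fun t ht => ?_
    refine hh_zero1 n t ?_
    have hn : (0 : ℝ) ≤ n := Nat.cast_nonneg n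
    rcases le_total 0 x with h0 | h0
    · rw [uIcc_of_le h0] at ht
      exact (mul_le_mul_of_nonneg_left ht.2 hn).trans h
    · rw [uIcc_of_ge h0] at ht
      have := mul_nonpos_of_nonneg_of_nonpos hn ht.2
      linarith
  rw [this]
  simp

lemma J_one (n : ℕ) (x : ℝ) (h : n * (1 - x) ≤ 1) : J n x = J n 1 := by
  unfold J
  have e := intervalIntegral.integral_add_adjacent_intervals
    ((hh_cont n).intervalIntegrable (μ := volume) 0 1)
    ((hh_cont n).intervalIntegrable (μ := volume) 1 x)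
  have : ∫ t in (1 : ℝ)..x, hh n t = ∫ t in (1 : ℝ)..x, (0 : ℝ) := by
    refine intervalIntegral.integral_congr fun t ht => ?_
    refine hh_zero2 n t ?_
    have hn : (0 : ℝ) ≤ n := Nat.cast_nonneg n
    rcases le_total 1 x with h0 | h0
    · rw [uIcc_of_le h0] at ht
      have := mul_nonpos_of_nonneg_of_nonpos hn (by linarith [ht.1] : 1 - t ≤ 0)
      linarith
    · rw [uIcc_of_ge h0] at ht
      exact (mul_le_mul_of_nonneg_left (by linarith [ht.1] : 1 - t ≤ 1 - x) hn).trans h
  rw [← e, this]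
  simp

lemma J_lim (x : ℝ) (h0 : 0 ≤ x) (h1 : x ≤ 1) : Tendsto (fun n => J n x) atTop (𝓝 x) := by
  have h : Tendsto (fun n => ∫ t in (0 : ℝ)..x, hh n t) atTop (𝓝 (∫ t in (0 : ℝ)..x, (1 : ℝ))) := by
    refine intervalIntegral.tendsto_integral_filter_of_dominated_convergence (fun _ => 1) ?_ ?_ ?_ ?_
    · exact Eventually.of_forall fun n => (hh_cont n).aestronglyMeasurable
    · refine Eventually.of_forall fun n => Eventually.of_forall fun t _ => ?_
      rw [Real.norm_eq_abs]
      exact hh_abs n t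
    · exact intervalIntegrable_const
    · have hne : ∀ᵐ t : ℝ, t ≠ 1 := by
        rw [ae_iff]
        simp
      filter_upwards [hne] with t ht ht2
      rw [uIoc_of_le h0] at ht2
      exact hh_lim t ht2.1 (lt_of_le_of_ne (ht2.2.trans h1) ht)
  have e : ∫ t in (0 : ℝ)..x, (1 : ℝ) = x := by simp
  rw [e] at h
  exact h

/-- the change of variables -/
def rho (n : ℕ) (x : ℝ) : ℝ := J n x / J n 1

lemma rho_deriv (n : ℕ) (x : ℝ) : HasDerivAt (rho n) (hh n x / J n 1) x :=
  (J_deriv n x).div_const _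

lemma rho_lim (x : ℝ) (h0 : 0 ≤ x) (h1 : x ≤ 1) : Tendsto (fun n => rho n x) atTop (𝓝 x) := by
  have := (J_lim x h0 h1).div (J_lim 1 zero_le_one le_rfl) one_ne_zero
  rw [div_one] at this
  exact this

lemma rho_cont (n : ℕ) : Continuous (rho n) :=
  continuous_iff_continuousAt.2 fun x => (rho_deriv n x).continuousAt

/-! ### the functions -/

/-- the functions -/
def gg (n k : ℕ) (x : ℝ) : ℝ := Real.sqrt 2 * Real.sin ((k + 1) * π * rho n x)

/-- the derivatives -/
def gd (n k : ℕ) (x : ℝ) : ℝ :=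
  Real.sqrt 2 * (Real.cos ((k + 1) * π * rho n x) * ((k + 1) * π)) * (hh n x / J n 1)

lemma gg_deriv (n k : ℕ) (x : ℝ) : HasDerivAt (gg n k) (gd n k x) x := by
  have h := (((rho_deriv n x).const_mul ((k + 1) * π)).sin).const_mul (Real.sqrt 2)
  refine h.congr_deriv ?_
  unfold gd
  ring

lemma gg_cont (n k : ℕ) : Continuous (gg n k) :=
  continuous_iff_continuousAt.2 fun x => (gg_deriv n k x).continuousAt

lemma gd_cont (n k : ℕ) : Continuous (gd n k) := by
  unfold gd
  have h1 := rho_cont n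
  have h2 := hh_cont n
  fun_prop

lemma gg_contDiff (n k : ℕ) : ContDiff ℝ 1 (gg n k) := by
  rw [contDiff_one_iff_deriv]
  refine ⟨fun x => (gg_deriv n k x).differentiableAt, ?_⟩
  have : deriv (gg n k) = gd n k := funext fun x => (gg_deriv n k x).deriv
  rw [this]
  exact gd_cont n k

lemma rho_zero (n : ℕ) (x : ℝ) (h : n * x ≤ 1) : rho n x = 0 := by
  unfold rho
  rw [J_zero n x h, zero_div]

lemma rho_one (n : ℕ) (x : ℝ) (hJ : J n 1 ≠ 0) (h : n * (1 - x) ≤ 1) : rho n x = 1 := by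
  unfold rho
  rw [J_one n x h, div_self hJ]

lemma gg_zero (n k : ℕ) (x : ℝ) (hJ : J n 1 ≠ 0) (h : n * x ≤ 1 ∨ n * (1 - x) ≤ 1) :
    gg n k x = 0 := by
  unfold gg
  rcases h with h | h
  · rw [rho_zero n x h]
    simp
  · rw [rho_one n x hJ h, mul_one]
    have := Real.sin_nat_mul_pi (k + 1)
    push_cast at this
    rw [this, mul_zero]

lemma gd_zero (n k : ℕ) (x : ℝ) (h : n * x ≤ 1 ∨ n * (1 - x) ≤ 1) : gd n k x = 0 := by
  unfold gd
  rcases h with h | h
  · rw [hh_zero1 n x h]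
    simp
  · rw [hh_zero2 n x h]
    simp

lemma out (n : ℕ) (x : ℝ) (hx : x ∉ Ioo (0 : ℝ) 1) : n * x ≤ 1 ∨ n * (1 - x) ≤ 1 := by
  have hn : (0 : ℝ) ≤ n := Nat.cast_nonneg n
  rw [mem_Ioo, not_and_or, not_lt, not_lt] at hx
  rcases hx with hx | hx
  · left
    have := mul_nonpos_of_nonneg_of_nonpos hn hx
    linarith
  · right
    have := mul_nonpos_of_nonneg_of_nonpos hn (by linarith : 1 - x ≤ 0)
    linarith

lemma gg_abs (n k : ℕ) (x : ℝ) : |gg n k x| ≤ Real.sqrt 2 := by
  unfold gg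
  rw [abs_mul, abs_of_nonneg (Real.sqrt_nonneg 2)]
  exact mul_le_of_le_one_right (Real.sqrt_nonneg 2) (Real.abs_sin_le_one _)

lemma gd_abs (n k : ℕ) (x : ℝ) (hJ : 1 / 2 ≤ J n 1) :
    |gd n k x| ≤ Real.sqrt 2 * ((k + 1) * π) * 2 := by
  unfold gd
  rw [abs_mul, abs_mul, abs_mul, abs_of_nonneg (Real.sqrt_nonneg 2),
    abs_of_nonneg (by positivity : 0 ≤ ((k : ℝ) + 1) * π), abs_div,
    abs_of_nonneg (by linarith : 0 ≤ J n 1)]
  have h1 : |Real.cos ((k + 1) * π * rho n x)| * (((k : ℝ) + 1) * π) ≤ ((k : ℝ) + 1) * π :=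
    mul_le_of_le_one_left (by positivity) (Real.abs_cos_le_one _)
  have h2 : |hh n x| / J n 1 ≤ 2 := by
    rw [div_le_iff₀ (by linarith)]
    linarith [hh_abs n x]
  refine mul_le_mul (mul_le_mul_of_nonneg_left h1 (Real.sqrt_nonneg 2)) h2
    (div_nonneg (abs_nonneg _) (by linarith)) (by positivity)

/-- dominated convergence -/
lemma dct (G : ℕ → ℝ → ℝ) (H : ℝ → ℝ) (B : ℝ) (hc : ∀ n, Continuous (G n))
    (h0 : ∀ᶠ n in atTop, ∀ x, x ∉ Ioo (0 : ℝ) 1 → G n x = 0)
    (hB : ∀ᶠ n in atTop, ∀ x, |G n x| ≤ B)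
    (hl : ∀ x ∈ Ioo (0 : ℝ) 1, Tendsto (fun n => G n x) atTop (𝓝 (H x))) :
    Tendsto (fun n => ∫ x, G n x) atTop (𝓝 (∫ x in (0 : ℝ)..1, H x)) := by
  have h1 : Tendsto (fun n => ∫ x in Ioo (0 : ℝ) 1, G n x) atTop
      (𝓝 (∫ x in Ioo (0 : ℝ) 1, H x)) := by
    refine tendsto_integral_filter_of_dominated_convergence (fun _ => B) ?_ ?_ ?_ ?_
    · exact Eventually.of_forall fun n => (hc n).aestronglyMeasurable
    · filter_upwards [hB] with n hn
      exact Eventually.of_forall fun x => by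
        rw [Real.norm_eq_abs]
        exact hn x
    · exact integrableOn_const (by simp)
    · rw [ae_restrict_iff' measurableSet_Ioo]
      exact Eventually.of_forall fun x hx => hl x hx
  have e : ∫ x in (0 : ℝ)..1, H x = ∫ x in Ioo (0 : ℝ) 1, H x := by
    rw [intervalIntegral.integral_of_le zero_le_one, integral_Ioc_eq_integral_Ioo]
  rw [e]
  refine h1.congr' ?_
  filter_upwards [h0] with n hn
  exact setIntegral_eq_integral_of_forall_compl_eq_zero hn

lemma J_half : ∀ᶠ n in atTop, (1 / 2 : ℝ) ≤ J n 1 :=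
  (J_lim 1 zero_le_one le_rfl).eventually_const_le (by norm_num : (1 / 2 : ℝ) < 1)

lemma lim1 (k l : ℕ) : Tendsto (fun n => ∫ x, gg n k x * gg n l x) atTop
    (𝓝 (if k = l then 1 else 0)) := by
  rw [← ss k l]
  refine dct _ _ (Real.sqrt 2 * Real.sqrt 2) (fun n => (gg_cont n k).mul (gg_cont n l)) ?_ ?_ ?_
  · filter_upwards [J_half] with n hn x hx
    rw [gg_zero n k x (by linarith) (out n x hx), zero_mul]
  · refine Eventually.of_forall fun n x => ?_
    rw [abs_mul]
    exact mul_le_mul (gg_abs n k x) (gg_abs n l x) (abs_nonneg _) (Real.sqrt_nonneg _)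
  · intro x hx
    have hr := rho_lim x hx.1.le hx.2.le
    have hs : ∀ j : ℕ, Tendsto (fun n => gg n j x) atTop
        (𝓝 (Real.sqrt 2 * Real.sin ((j + 1) * π * x))) := fun j =>
      ((Real.continuous_sin.tendsto _).comp (hr.const_mul ((j + 1) * π))).const_mul _
    exact (hs k).mul (hs l)

lemma lim2 (k l : ℕ) : Tendsto (fun n => ∫ x, gd n k x * gd n l x) atTop
    (𝓝 (if k = l then (π * (k + 1)) ^ 2 else 0)) := by
  rw [← cc k l]
  refine dct _ _ ((Real.sqrt 2 * ((k + 1) * π) * 2) * (Real.sqrt 2 * ((l + 1) * π) * 2))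
    (fun n => (gd_cont n k).mul (gd_cont n l)) ?_ ?_ ?_
  · refine Eventually.of_forall fun n x hx => ?_
    rw [gd_zero n k x (out n x hx), zero_mul]
  · filter_upwards [J_half] with n hn x
    rw [abs_mul]
    exact mul_le_mul (gd_abs n k x hn) (gd_abs n l x hn) (abs_nonneg _) (by positivity)
  · intro x hx
    have hr := rho_lim x hx.1.le hx.2.le
    have hq : Tendsto (fun n => hh n x / J n 1) atTop (𝓝 1) := by
      have := (hh_lim x hx.1 hx.2).div (J_lim 1 zero_le_one le_rfl) one_ne_zero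
      rw [div_one] at this
      exact this
    have hs : ∀ j : ℕ, Tendsto (fun n => gd n j x) atTop
        (𝓝 (Real.sqrt 2 * (Real.cos ((j + 1) * π * x) * ((j + 1) * π)))) := fun j => by
      have := (((((Real.continuous_cos.tendsto _).comp
        (hr.const_mul ((j + 1) * π))).mul_const ((j + 1) * π)).const_mul (Real.sqrt 2)).mul hq)
      rw [mul_one] at this
      exact this
    exact (hs k).mul (hs l)

theorem t1 : StDir1 := by
  intro K ε hε
  have e1 : ∀ k l : Fin K, ∀ᶠ n in atTop, |(∫ x, gg n k x * gg n l x) -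
      if k = l then 1 else 0| ≤ ε := by
    intro k l
    have h := lim1 k l
    have h2 := (h.sub_const (if k = l then (1 : ℝ) else 0)).abs
    have e : (if (k : ℕ) = (l : ℕ) then (1 : ℝ) else 0) - (if k = l then (1 : ℝ) else 0) = 0 := by
      simp only [Fin.ext_iff, sub_self]
    rw [e, abs_zero] at h2
    exact h2.eventually_le_const hε
  have e2 : ∀ k l : Fin K, ∀ᶠ n in atTop, |(∫ x, gd n k x * gd n l x) -
      if k = l then (π * ((k : ℕ) + 1)) ^ 2 else 0| ≤ ε := by
    intro k l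
    have h := lim2 k l
    have h2 := (h.sub_const (if k = l then (π * ((k : ℕ) + 1)) ^ 2 else 0)).abs
    have e : (if (k : ℕ) = (l : ℕ) then (π * ((k : ℕ) + 1)) ^ 2 else 0) -
        (if k = l then (π * ((k : ℕ) + 1)) ^ 2 else 0) = 0 := by
      simp only [Fin.ext_iff, sub_self]
    rw [e, abs_zero] at h2
    exact h2.eventually_le_const hε
  have e3 := (eventually_all.2 fun k => eventually_all.2 fun l => e1 k l).and
    ((eventually_all.2 fun k => eventually_all.2 fun l => e2 k l).and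
      (J_half.and (eventually_gt_atTop 2)))
  obtain ⟨n, h1, h2, h3, h4⟩ := e3.exists
  have hd : ∀ k : ℕ, deriv (gg n k) = gd n k := fun k => funext fun x => (gg_deriv n k x).deriv
  refine ⟨fun k => gg n k, fun k => ⟨gg_contDiff n k, ?_⟩, fun k l => ⟨h1 k l, ?_⟩⟩
  · have hn : (0 : ℝ) < n := by
      have : 0 < n := by omega
      exact_mod_cast this
    have hsub : Function.support (gg n k) ⊆ Icc (1 / (n : ℝ)) (1 - 1 / (n : ℝ)) := by
      intro x hx
      by_contra hne
      refine hx (gg_zero n k x (by linarith) ?_)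
      rw [mem_Icc, not_and_or, not_le, not_le] at hne
      rcases hne with hne | hne
      · left
        have := mul_lt_mul_of_pos_left hne hn
        rw [mul_one_div_cancel hn.ne'] at this
        exact this.le
      · right
        have := mul_lt_mul_of_pos_left (by linarith : 1 - x < 1 / (n : ℝ)) hn
        rw [mul_one_div_cancel hn.ne'] at this
        exact this.le
    refine (closure_minimal hsub isClosed_Icc).trans fun x hx => ?_
    have : (0 : ℝ) < 1 / n := by positivity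
    exact ⟨by linarith [hx.1], by linarith [hx.2]⟩
  · simp only [hd]
    exact h2 k l

end Pool.Agent.Y252.QR.Dir1
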