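import Pool.Agent.Y264.QR.Stm2

/-!
# Project QR, part LAT: lattice points in a quarter disc
-/

set_option autoImplicit false

open Set Filter Topology MeasureTheory
open scoped Real ContDiff

noncomputable section

namespace Pool.Agent.Y252.QR.Lat

open Pool.Agent.Y264.QR

/-- the height of the circle -/
def g (R x : ℝ) : ℝ := Real.sqrt (R - x ^ 2)

lemma g_nonneg (R x : ℝ) : 0 ≤ g R x := Real.sqrt_nonneg _

lemma g_cont (R : ℝ) : Continuous (g R) := by
  unfold g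
  fun_prop

lemma g_anti (R a b : ℝ) (ha : 0 ≤ a) : AntitoneOn (g R) (Icc a b) := by
  intro x hx y _ hxy
  unfold g
  refine Real.sqrt_le_sqrt ?_
  have h0 : 0 ≤ x := ha.trans hx.1
  have := pow_le_pow_left₀ h0 hxy 2
  linarith

lemma int_one : ∫ x in (0 : ℝ)..1, Real.sqrt (1 - x ^ 2) = π / 4 := by
  have h := integral_sqrt_one_sub_sq
  have hc : Continuous fun x : ℝ => Real.sqrt (1 - x ^ 2) := by fun_prop
  rw [← intervalIntegral.integral_add_adjacent_intervals (b := 0) (hc.intervalIntegrable _ _)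
    (hc.intervalIntegrable _ _)] at h
  have h2 : ∫ x in (-1 : ℝ)..0, Real.sqrt (1 - x ^ 2) = ∫ x in (0 : ℝ)..1, Real.sqrt (1 - x ^ 2) := by
    have := intervalIntegral.integral_comp_neg (a := (0 : ℝ)) (b := 1)
      (fun x : ℝ => Real.sqrt (1 - x ^ 2))
    simp only [neg_sq, neg_zero] at this
    exact this.symm
  rw [h2] at h
  linarith

lemma int_g (R : ℝ) (hR : 0 < R) (K : ℝ) (hK : Real.sqrt R ≤ K) :
    ∫ x in (0 : ℝ)..K, g R x = π / 4 * R := by
  have hs : 0 < Real.sqrt R := Real.sqrt_pos.2 hR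
  have hs2 : Real.sqrt R ^ 2 = R := Real.sq_sqrt hR.le
  rw [← intervalIntegral.integral_add_adjacent_intervals (b := Real.sqrt R)
    ((g_cont R).intervalIntegrable _ _) ((g_cont R).intervalIntegrable _ _)]
  have h1 : ∫ x in (Real.sqrt R)..K, g R x = 0 := by
    have : ∫ x in (Real.sqrt R)..K, g R x = ∫ x in (Real.sqrt R)..K, (0 : ℝ) := by
      refine intervalIntegral.integral_congr fun x hx => ?_
      rw [uIcc_of_le hK] at hx
      have : Real.sqrt R ^ 2 ≤ x ^ 2 := pow_le_pow_left₀ hs.le hx.1 2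
      show Real.sqrt (R - x ^ 2) = 0
      exact Real.sqrt_eq_zero_of_nonpos (by linarith)
    rw [this]
    simp
  have h2 : ∫ x in (0 : ℝ)..(Real.sqrt R), g R x = π / 4 * R := by
    have h3 := intervalIntegral.integral_comp_mul_left (a := (0 : ℝ)) (b := 1) (g R) hs.ne'
    rw [mul_zero, mul_one] at h3
    have h4 : ∀ x, g R (Real.sqrt R * x) = Real.sqrt R * Real.sqrt (1 - x ^ 2) := by
      intro x
      unfold g
      rw [← Real.sqrt_mul hR.le, mul_pow, hs2]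
      congr 1
      ring
    simp only [h4] at h3
    rw [intervalIntegral.integral_const_mul, int_one, smul_eq_mul] at h3
    have h5 : ∫ x in (0 : ℝ)..(Real.sqrt R), g R x =
        Real.sqrt R * ((Real.sqrt R)⁻¹ * ∫ x in (0 : ℝ)..(Real.sqrt R), g R x) := by
      field_simp
    rw [h5, ← h3]
    calc Real.sqrt R * (Real.sqrt R * (π / 4)) = Real.sqrt R ^ 2 * (π / 4) := by ring
      _ = π / 4 * R := by rw [hs2]; ring
  rw [h1, h2, add_zero]

/-- counting by columns -/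
lemma cnt (P : ℕ × ℕ → Prop) (K : ℕ) (n : ℕ → ℕ) (h : ∀ p, P p ↔ p.1 < K ∧ p.2 < n p.1) :
    Nat.card {p : ℕ × ℕ // P p} = ∑ a ∈ Finset.range K, n a := by
  rw [Nat.subtype_card (((Finset.range K).sigma fun a => Finset.range (n a)).map
    (Equiv.sigmaEquivProd ℕ ℕ).toEmbedding)]
  · simp
  · intro p
    rw [h p]
    constructor
    · intro hp
      rw [Finset.mem_map] at hp
      obtain ⟨q, hq, rfl⟩ := hp
      simpa using hq
    · intro hp
      rw [Finset.mem_map]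
      exact ⟨⟨p.1, p.2⟩, by simpa using hp, rfl⟩

lemma cN_eq (R : ℝ) (hR : 0 < R) :
    cN R = ∑ a ∈ Finset.range ⌈Real.sqrt R⌉₊, ⌈g R a⌉₊ := by
  unfold cN
  refine cnt _ _ _ fun p => ?_
  have h1 : p.2 < ⌈g R p.1⌉₊ ↔ (p.2 : ℝ) ^ 2 < R - (p.1 : ℝ) ^ 2 := by
    rw [Nat.lt_ceil]
    exact Real.lt_sqrt (Nat.cast_nonneg _)
  have h2 : p.1 < ⌈Real.sqrt R⌉₊ ↔ (p.1 : ℝ) ^ 2 < R := by
    rw [Nat.lt_ceil]
    exact Real.lt_sqrt (Nat.cast_nonneg _)
  rw [h1, h2]
  constructor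
  · intro h
    exact ⟨by nlinarith [sq_nonneg (p.2 : ℝ)], by linarith⟩
  · rintro ⟨-, h⟩
    linarith

lemma cD_eq (R : ℝ) (hR : 0 < R) :
    cD R = ∑ a ∈ Finset.range ⌈Real.sqrt R⌉₊, ⌊g R ((a + 1 : ℕ) : ℝ)⌋₊ := by
  unfold cD
  refine cnt _ _ _ fun p => ?_
  have h1 : p.2 < ⌊g R ((p.1 + 1 : ℕ) : ℝ)⌋₊ ↔ ((p.2 : ℝ) + 1) ^ 2 ≤ R - ((p.1 : ℝ) + 1) ^ 2 := by
    rw [← Nat.succ_le_iff, Nat.le_floor_iff (g_nonneg _ _)]
    unfold g
    rw [Real.le_sqrt' (by positivity)]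
    push_cast
    rfl
  have h2 : p.1 < ⌈Real.sqrt R⌉₊ ↔ (p.1 : ℝ) ^ 2 < R := by
    rw [Nat.lt_ceil]
    exact Real.lt_sqrt (Nat.cast_nonneg _)
  rw [h1, h2]
  have hp1 : (0 : ℝ) ≤ p.1 := Nat.cast_nonneg _
  have hp2 : (0 : ℝ) ≤ p.2 := Nat.cast_nonneg _
  constructor
  · intro h
    exact ⟨by nlinarith, by linarith⟩
  · rintro ⟨-, h⟩
    linarith

lemma bounds (R : ℝ) (hR : 0 < R) :
    (π / 4 * R ≤ cN R ∧ (cN R : ℝ) ≤ π / 4 * R + (2 * Real.sqrt R + 1)) ∧
    (π / 4 * R - (2 * Real.sqrt R + 1) ≤ cD R ∧ (cD R : ℝ) ≤ π / 4 * R) := by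
  set K := ⌈Real.sqrt R⌉₊ with hK
  have hs : 0 < Real.sqrt R := Real.sqrt_pos.2 hR
  have hK1 : Real.sqrt R ≤ K := Nat.le_ceil _
  have hK2 : (K : ℝ) < Real.sqrt R + 1 := Nat.ceil_lt_add_one hs.le
  have hg0 : g R 0 = Real.sqrt R := by
    unfold g
    simp
  -- sums and integrals
  have i1 : ∫ x in (0 : ℝ)..K, g R x ≤ ∑ i ∈ Finset.range K, g R i := by
    have := (g_anti R 0 (0 + (K : ℕ)) le_rfl).integral_le_sum
    simpa using this
  have i2 : ∑ i ∈ Finset.range K, g R ((i + 1 : ℕ) : ℝ) ≤ ∫ x in (0 : ℝ)..K, g R x := by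
    have := (g_anti R 0 (0 + (K : ℕ)) le_rfl).sum_le_integral
    simpa using this
  rw [int_g R hR K hK1] at i1 i2
  have i3 : ∑ i ∈ Finset.range K, g R i ≤ Real.sqrt R +
      ∑ i ∈ Finset.range K, g R ((i + 1 : ℕ) : ℝ) := by
    have e := Finset.sum_range_succ' (fun i : ℕ => g R i) K
    have e2 := Finset.sum_range_succ (fun i : ℕ => g R i) K
    simp only [Nat.cast_zero, hg0] at e
    have := g_nonneg R (K : ℝ)
    linarith
  refine ⟨?_, ?_⟩
  · rw [cN_eq R hR]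
    push_cast
    constructor
    · refine i1.trans (Finset.sum_le_sum fun a _ => Nat.le_ceil _)
    · have : ∑ a ∈ Finset.range K, (⌈g R a⌉₊ : ℝ) ≤ ∑ a ∈ Finset.range K, (g R a + 1) :=
        Finset.sum_le_sum fun a _ => (Nat.ceil_lt_add_one (g_nonneg _ _)).le
      rw [Finset.sum_add_distrib, Finset.sum_const, Finset.card_range, nsmul_eq_mul, mul_one] at this
      linarith
  · rw [cD_eq R hR]
    rw [Nat.cast_sum]
    constructor
    · have : ∑ a ∈ Finset.range K, (g R ((a + 1 : ℕ) : ℝ) - 1) ≤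
          ∑ a ∈ Finset.range K, (⌊g R ((a + 1 : ℕ) : ℝ)⌋₊ : ℝ) :=
        Finset.sum_le_sum fun a _ => by
          have := Nat.lt_floor_add_one (g R ((a + 1 : ℕ) : ℝ))
          linarith
      rw [Finset.sum_sub_distrib, Finset.sum_const, Finset.card_range, nsmul_eq_mul,
        mul_one] at this
      linarith
    · refine le_trans (Finset.sum_le_sum fun a _ => ?_) i2
      exact Nat.floor_le (g_nonneg _ _)

lemma lim0 : Tendsto (fun R : ℝ => (2 * Real.sqrt R + 1) / R) atTop (𝓝 0) := by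
  have h1 : Tendsto (fun R : ℝ => 2 * (Real.sqrt R)⁻¹ + R⁻¹) atTop (𝓝 (2 * 0 + 0)) :=
    ((tendsto_inv_atTop_zero.comp Real.tendsto_sqrt_atTop).const_mul 2).add tendsto_inv_atTop_zero
  rw [mul_zero, add_zero] at h1
  refine h1.congr' ?_
  filter_upwards [eventually_gt_atTop 0] with R hR
  have hs : 0 < Real.sqrt R := Real.sqrt_pos.2 hR
  have hs2 : Real.sqrt R * Real.sqrt R = R := Real.mul_self_sqrt hR.le
  rw [add_div, inv_eq_one_div R]
  congr 1
  rw [eq_div_iff hR.ne']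
  calc 2 * (Real.sqrt R)⁻¹ * R = 2 * (Real.sqrt R)⁻¹ * (Real.sqrt R * Real.sqrt R) := by rw [hs2]
    _ = 2 * Real.sqrt R := by
      field_simp

theorem lat : StLat := by
  have hc : Tendsto (fun _ : ℝ => π / 4) atTop (𝓝 (π / 4)) := tendsto_const_nhds
  constructor
  · have hu : Tendsto (fun R : ℝ => π / 4 + (2 * Real.sqrt R + 1) / R) atTop (𝓝 (π / 4)) := by
      simpa using hc.add lim0
    refine tendsto_of_tendsto_of_tendsto_of_le_of_le' hc hu ?_ ?_
    · filter_upwards [eventually_gt_atTop 0] with R hR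
      rw [le_div_iff₀ hR]
      exact (bounds R hR).1.1
    · filter_upwards [eventually_gt_atTop 0] with R hR
      have := (bounds R hR).1.2
      rw [div_le_iff₀ hR, add_mul, div_mul_cancel₀ _ hR.ne']
      exact this
  · have hl : Tendsto (fun R : ℝ => π / 4 - (2 * Real.sqrt R + 1) / R) atTop (𝓝 (π / 4)) := by
      simpa using hc.sub lim0
    refine tendsto_of_tendsto_of_tendsto_of_le_of_le' hl hc ?_ ?_
    · filter_upwards [eventually_gt_atTop 0] with R hR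
      have := (bounds R hR).2.1
      rw [le_div_iff₀ hR, sub_mul, div_mul_cancel₀ _ hR.ne']
      exact this
    · filter_upwards [eventually_gt_atTop 0] with R hR
      rw [div_le_iff₀ hR]
      exact (bounds R hR).2.2

end Pool.Agent.Y252.QR.Lat
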